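import Pool.Agent.H5R2.NB.ALL

/-! `(H - E) e^{-itH} u = e^{-itH} (H - E) u` for possibly unbounded potentials -/

set_option autoImplicit false

open MeasureTheory Filter Topology
open scoped BigOperators ENNReal NNReal InnerProductSpace ComplexConjugate

namespace Pool.Agent.U619.UP

open Pool.Agent.H5R2.NB

variable {d : ℕ}

/-- the functional `f ↦ (K f + V f) x` -/
noncomputable def LL (c : ℝ) (V : Site d → ℝ) (x : Site d) : L2 (Site d) →L[ℂ] ℂ :=
  (c : ℂ) • (∑ i : Fin d, (lp.evalCLM ℂ (fun _ : Site d => ℂ) 2 (x + Pi.single i 1) +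
    lp.evalCLM ℂ (fun _ : Site d => ℂ) 2 (x - Pi.single i 1))) +
    (V x : ℂ) • lp.evalCLM ℂ (fun _ : Site d => ℂ) 2 x

theorem LL_apply (c : ℝ) (V : Site d → ℝ) (x : Site d) (f : L2 (Site d)) :
    LL c V x f = hopf c (fun y => f y) x + V x * f x := by
  unfold LL hopf
  simp
  rfl

/-- the group commutes with `H` -/
theorem comm0 (c : ℝ) (V : Site d → ℝ) (W : UG (L2 (Site d))) (hW : IsGrp c V W)
    (u w : L2 (Site d)) (h : ∀ x, hopf c (fun y => u y) x + V x * u x = w x) (t : ℝ)
    (x : Site d) :
    hopf c (fun y => (W.U t u) y) x + V x * (W.U t u) x = (W.U t w) x := by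
  have hsol : IsSol c V (fun _ => u) (fun _ => Complex.I • w) := by
    refine ⟨fun T => ⟨‖u‖, fun t _ => le_rfl⟩, fun t x => ?_⟩
    have e : -Complex.I * (hopf c (fun y => u y) x + V x * u x) + (Complex.I • w) x = 0 := by
      rw [h x]
      have : (Complex.I • w) x = Complex.I * w x := rfl
      rw [this]
      ring
    show HasDerivAt (fun _ => u x)
      (-Complex.I * (hopf c (fun y => u y) x + V x * u x) + (Complex.I • w) x) t
    rw [e]
    exact hasDerivAt_const t (u x)
  have h1 : u = W.U t u + ∫ s in (0 : ℝ)..t, W.U (t - s) (Complex.I • w) :=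
    ALL.a_UN d c V W hW (fun _ => u) (fun _ => Complex.I • w) continuous_const hsol t
  have h2 : ∫ s in (0 : ℝ)..t, W.U (t - s) (Complex.I • w) =
      ∫ r in (0 : ℝ)..t, W.U r (Complex.I • w) := by
    have := intervalIntegral.integral_comp_sub_left (a := 0) (b := t)
      (fun r => W.U r (Complex.I • w)) t
    rw [this]
    simp
  rw [h2] at h1
  have hc : Continuous fun r => W.U r w := W.cont' w
  have h3 : LL c V x (∫ r in (0 : ℝ)..t, W.U r (Complex.I • w)) =
      ∫ r in (0 : ℝ)..t, Complex.I * LL c V x (W.U r w) := by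
    rw [← ContinuousLinearMap.intervalIntegral_comp_comm _
      ((W.cont' (Complex.I • w)).intervalIntegrable 0 t)]
    refine intervalIntegral.integral_congr fun r _ => ?_
    simp
  have h4 : ∫ r in (0 : ℝ)..t, -Complex.I * LL c V x (W.U r w) =
      (W.U t w) x - (W.U 0 w) x := by
    refine intervalIntegral.integral_eq_sub_of_hasDerivAt (f := fun r => (W.U r w) x)
      (fun r _ => ?_) ?_
    · have h5 := (hW w).2 r x
      have e3 : ((0 : L2 (Site d)) x) = 0 := rfl
      rw [e3, add_zero] at h5
      rw [LL_apply]
      exact h5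
    · exact (((LL c V x).continuous.comp hc).const_mul (-Complex.I)).intervalIntegrable 0 t
  have h5 : W.U t u = u - ∫ r in (0 : ℝ)..t, W.U r (Complex.I • w) := by
    rw [eq_sub_iff_add_eq]
    exact h1.symm
  rw [← LL_apply, h5, map_sub, h3, LL_apply, h x]
  have h6 : ∫ r in (0 : ℝ)..t, -Complex.I * LL c V x (W.U r w) =
      -∫ r in (0 : ℝ)..t, Complex.I * LL c V x (W.U r w) := by
    rw [← intervalIntegral.integral_neg]
    refine intervalIntegral.integral_congr fun r _ => ?_
    ring
  rw [h6, W.zero'] at h4
  linear_combination h4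

/-- the group of the shifted potential -/
theorem shift_eq (c : ℝ) (V : Site d → ℝ) (E : ℝ) (W W' : UG (L2 (Site d))) (hW : IsGrp c V W)
    (hW' : IsGrp c (fun x => V x - E) W') (u : L2 (Site d)) (t : ℝ) :
    W'.U t u = Complex.exp (Complex.I * E * t) • W.U t u := by
  have hsol : IsSol c (fun x => V x - E) (fun t => Complex.exp (Complex.I * E * t) • W.U t u)
      (fun _ => 0) := by
    refine ⟨fun T => ⟨‖u‖, fun t _ => ?_⟩, fun t x => ?_⟩
    · rw [norm_smul, W.norm']
      have : ‖Complex.exp (Complex.I * E * t)‖ = 1 := by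
        rw [Complex.norm_exp]
        simp
      rw [this, one_mul]
    · have h1 := (hW u).2 t x
      have h2 : HasDerivAt (fun s : ℝ => Complex.exp (Complex.I * E * s))
          (Complex.exp (Complex.I * E * t) * (Complex.I * E)) t := by
        have h3 : HasDerivAt (fun s : ℝ => Complex.I * E * (s : ℂ)) (Complex.I * E) t := by
          have := (Complex.ofRealCLM.hasDerivAt (x := t)).const_mul (Complex.I * (E : ℂ))
          simpa using this
        exact h3.cexp
      have h4 := h2.mul h1
      refine h4.congr_deriv ?_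
      have e3 : ((0 : L2 (Site d)) x) = 0 := rfl
      have e4 : hopf c (fun y => (Complex.exp (Complex.I * E * t) • W.U t u) y) x =
          Complex.exp (Complex.I * E * t) * hopf c (fun y => (W.U t u) y) x := by
        have := LL_apply c (fun _ => 0) x (Complex.exp (Complex.I * E * t) • W.U t u)
        have h6 := LL_apply c (fun _ => 0) x (W.U t u)
        rw [map_smul, h6] at this
        simpa using this.symm
      have e5 : (Complex.exp (Complex.I * E * t) • W.U t u) x =
          Complex.exp (Complex.I * E * t) * (W.U t u) x := rfl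
      rw [e4, e5, e3]
      push_cast
      ring
  have h := ALL.a_UN d c _ W' hW' _ (fun _ => 0) continuous_const hsol t
  simp only [W.zero', map_zero, intervalIntegral.integral_zero, add_zero, Complex.ofReal_zero,
    mul_zero, Complex.exp_zero, one_smul] at h
  exact h.symm

/-- the group commutes with `H - E` -/
theorem commE (c : ℝ) (V : Site d → ℝ) (W : UG (L2 (Site d))) (hW : IsGrp c V W) (E : ℝ)
    (u w : L2 (Site d)) (h : ∀ x, hopf c (fun y => u y) x + V x * u x = E * u x + w x) (t : ℝ)
    (x : Site d) :
    hopf c (fun y => (W.U t u) y) x + V x * (W.U t u) x = E * (W.U t u) x + (W.U t w) x := by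
  obtain ⟨W', hW'⟩ := ALL.a_EX d c (fun x => V x - E)
  have h1 := comm0 c (fun x => V x - E) W' hW' u w (fun x => by
    have := h x
    push_cast
    linear_combination this) t x
  rw [shift_eq c V E W W' hW hW' u t, shift_eq c V E W W' hW hW' w t] at h1
  have e4 : hopf c (fun y => (Complex.exp (Complex.I * E * t) • W.U t u) y) x =
      Complex.exp (Complex.I * E * t) * hopf c (fun y => (W.U t u) y) x := by
    have := LL_apply c (fun _ => 0) x (Complex.exp (Complex.I * E * t) • W.U t u)
    have h6 := LL_apply c (fun _ => 0) x (W.U t u)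
    rw [map_smul, h6] at this
    simpa using this.symm
  have e5 : ∀ g : L2 (Site d), (Complex.exp (Complex.I * E * t) • g) x =
      Complex.exp (Complex.I * E * t) * g x := fun g => rfl
  rw [e4, e5, e5] at h1
  have hne : Complex.exp (Complex.I * E * t) ≠ 0 := Complex.exp_ne_zero _
  have h2 : Complex.exp (Complex.I * E * t) * (hopf c (fun y => (W.U t u) y) x +
      V x * (W.U t u) x) = Complex.exp (Complex.I * E * t) *
      (E * (W.U t u) x + (W.U t w) x) := by
    push_cast at h1
    linear_combination h1
  exact mul_left_cancel₀ hne h2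

end Pool.Agent.U619.UP
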