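import Pool.Agent.U619.UP.Law
import Pool.Agent.U619.UP.Dyn

/-! Wave packets of small energy width stay spread for all times -/

set_option autoImplicit false

open scoped BigOperators
open MeasureTheory

namespace Pool.Agent.U619.UP

open Pool.Agent.W788.MF2.FormG
open Pool.Agent.H5R2.NB

variable {d : ℕ}

theorem packet (hd : 1 ≤ d) (m : ℕ) (Cg : ℝ) (hCg : 0 < Cg)
    (hg : ∀ (L : ℕ) [NeZero L] (δ : ℝ), 1 / (L : ℝ) ≤ δ → δ ≤ 1 / 2 →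
      GB d L δ (Cg * Real.log (1 / δ) ^ m)) (b : ℝ) (hb : 0 < b) :
    ∃ K : ℝ, 0 < K ∧ ∀ (μ : Measure ℝ), IsProbabilityMeasure μ →
      ((∀ᵐ s ∂μ, |s| ≤ b) ∨ μ = ProbabilityTheory.gaussianReal 0 1) →
      ∀ lam ρ : ℝ, 0 < lam → lam ≤ 1 / 2 → 1 / lam ≤ ρ →
      ∃ G : Set (Site d → ℝ), MeasurableSet G ∧
        1 - 1 / ρ ≤ (Measure.infinitePi fun _ : Site d => μ).real G ∧
        ∀ ω ∈ G, ∀ W : UG (L2 (Site d)), IsGrp (-1) (fun x => 2 * d + lam * ω x) W →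
        ∀ (θ E δ : ℝ) (u w : L2 (Site d)), 0 < θ → θ ≤ 1 →
          (∀ j : ℕ, j ≤ d → θ ≤ |E - lam * (∫ s, s ∂μ) - 4 * j|) →
          K * (lam ^ 2 * Real.log (1 / lam) ^ m * Real.log ρ) ≤ δ →
          (∀ x, hopf (-1) (fun y => u y) x + ((2 * d + lam * ω x : ℝ) : ℂ) * u x =
            (E : ℂ) * u x + w x) → ‖w‖ ≤ δ * ‖u‖ →
          ∀ (t : ℝ) (a : Site d), ‖a‖ ≤ ρ → ∀ R : ℝ, 1 ≤ R → ∀ A : Finset (Site d),
            (∀ x ∈ A, ‖x - a‖ ≤ R) →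
            (∑ x ∈ A, ‖(W.U t u) x‖ ^ 2 ≤ K / θ * Real.sqrt (R * δ) * ‖u‖ ^ 2) ∧
            (∀ κ : ℝ, 0 < κ → u ≠ 0 → κ * ‖u‖ ^ 2 ≤ ∑ x ∈ A, ‖(W.U t u) x‖ ^ 2 →
              κ ^ 2 * θ ^ 2 / (K ^ 2 * δ) ≤ R) := by
  obtain ⟨K, hK, h⟩ := lawU hd m Cg hCg hg b hb
  refine ⟨K, hK, ?_⟩
  intro μ hμ hμb lam ρ hlam hl2 hρ
  obtain ⟨G, hG, hP, hb1⟩ := h μ hμ hμb lam ρ hlam hl2 hρ
  refine ⟨G, hG, hP, ?_⟩
  intro ω hω W hW θ E δ u w hθ hθ1 hcrit hδ heq hwu t a ha R hR A hA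
  have hl1 : 0 < Real.log (1 / lam) := Real.log_pos (by
    rw [lt_div_iff₀ hlam]; linarith)
  have hρ1 : 1 < ρ := lt_of_lt_of_le (by rw [lt_div_iff₀ hlam]; linarith) hρ
  have hlρ := Real.log_pos hρ1
  have hδp : 0 < δ := lt_of_lt_of_le (by positivity) hδ
  have hsq : ∀ g : L2 (Site d), HasSum (fun x => ‖g x‖ ^ 2) (‖g‖ ^ 2) := fun g => MOM.hasSum_sq g
  have eu : ∑' x, ‖(W.U t u) x‖ ^ 2 = ‖u‖ ^ 2 := by
    rw [(hsq (W.U t u)).tsum_eq, W.norm']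
  have ew : ∑' x, ‖(W.U t w) x‖ ^ 2 = ‖w‖ ^ 2 := by
    rw [(hsq (W.U t w)).tsum_eq, W.norm']
  have hc := commE (-1) (fun x => 2 * d + lam * ω x) W hW E u w (fun x => heq x) t
  have main := hb1 ω hω E δ (fun x => (W.U t u) x) (fun x => (W.U t w) x) hδ
    (hsq (W.U t u)).summable (hsq (W.U t w)).summable (by
      rw [eu, ew, ← mul_pow]
      exact pow_le_pow_left₀ (norm_nonneg _) hwu 2) (by
      intro x
      have h1 := hc x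
      have h2 : hopf (-1) (fun y => (W.U t u) y) x =
          -Pool.Agent.W788.LD.Spec.S (fun x => (W.U t u) x) x := by
        unfold hopf Pool.Agent.W788.LD.Spec.S
        push_cast
        ring
      rw [h2] at h1
      exact h1) a ha θ R hθ hθ1 hcrit hR A hA
  rw [eu] at main
  refine ⟨main, ?_⟩
  intro κ hκ hu0 hmass
  have hpos : 0 < ‖u‖ ^ 2 := by
    have := norm_pos_iff.2 hu0
    positivity
  have h1 : κ * ‖u‖ ^ 2 ≤ K / θ * Real.sqrt (R * δ) * ‖u‖ ^ 2 := hmass.trans main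
  have h2 : κ ≤ K / θ * Real.sqrt (R * δ) := le_of_mul_le_mul_right h1 hpos
  have h3 : κ * θ ≤ K * Real.sqrt (R * δ) := by
    have := mul_le_mul_of_nonneg_right h2 hθ.le
    have e : K / θ * Real.sqrt (R * δ) * θ = K * Real.sqrt (R * δ) := by
      field_simp
    rwa [e] at this
  have hRD : 0 ≤ R * δ := by positivity
  have h4 : (κ * θ) ^ 2 ≤ (K * Real.sqrt (R * δ)) ^ 2 :=
    pow_le_pow_left₀ (by positivity) h3 2
  rw [mul_pow, mul_pow, Real.sq_sqrt hRD] at h4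
  rw [div_le_iff₀ (by positivity)]
  calc κ ^ 2 * θ ^ 2 ≤ K ^ 2 * (R * δ) := h4
    _ = R * (K ^ 2 * δ) := by ring

end Pool.Agent.U619.UP
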