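import Pool.Agent.U619.UP.Main
import Pool.Agent.W788.LD.Uni

/-! The laws: bounded, or standard Gaussian -/

set_option autoImplicit false
set_option linter.unusedSectionVars false

open scoped BigOperators
open MeasureTheory

namespace Pool.Agent.U619.UP

open Pool.Agent.W788.MFP.Four Pool.Agent.W788.MFP.Form
open Pool.Agent.W788.MF2.FormG Pool.Agent.W788.MF2.Dom Pool.Agent.W788.MF2.FinG
open Pool.Agent.W788
open Pool.Agent.H4R2
open Pool.Agent.H4R2.LO (Zd)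
open Pool.Agent.W788.LD.Spec (S)

variable {d : ℕ}

/-- the centred law of the potential -/
theorem centre (b : ℝ) (μ : Measure ℝ) [IsProbabilityMeasure μ]
    (hμb : ∀ᵐ s ∂μ, |s| ≤ b) :
    IsProbabilityMeasure (μ.map fun s => (∫ s, s ∂μ) - s) ∧
    (∀ᵐ s ∂(μ.map fun s => (∫ s, s ∂μ) - s), |s| ≤ 2 * b) ∧
    ∫ s, s ∂(μ.map fun s => (∫ s, s ∂μ) - s) = 0 := by
  obtain ⟨M0, hM0⟩ : ∃ M0, M0 = ∫ s, s ∂μ := ⟨_, rfl⟩
  rw [← hM0]
  have hint : Integrable (fun s : ℝ => s) μ := by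
    refine Integrable.of_bound (C := b) measurable_id.aestronglyMeasurable ?_
    filter_upwards [hμb] with s hs
    rw [Real.norm_eq_abs]
    exact hs
  have hM0b : |M0| ≤ b := by
    rw [hM0, ← Real.norm_eq_abs]
    have h1 := norm_integral_le_of_norm_le_const (μ := μ) (f := fun s : ℝ => s) (C := b) (by
      filter_upwards [hμb] with s hs
      rw [Real.norm_eq_abs]
      exact hs)
    rw [probReal_univ, mul_one] at h1
    exact h1
  have hmm : Measurable fun s : ℝ => M0 - s := by fun_prop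
  refine ⟨Measure.isProbabilityMeasure_map hmm.aemeasurable, ?_, ?_⟩
  · rw [ae_map_iff hmm.aemeasurable (measurableSet_le (by fun_prop) (by fun_prop))]
    filter_upwards [hμb] with s hs
    have h1 := abs_sub M0 s
    linarith
  · rw [integral_map hmm.aemeasurable (by fun_prop), integral_sub (integrable_const _) hint,
      integral_const, probReal_univ, one_smul, hM0, sub_self]

/-- pulling the event back -/
theorem pull (M0 : ℝ) (μ : Measure ℝ) [IsProbabilityMeasure μ] (G : Set (Zd d → ℝ))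
    (hG : MeasurableSet G) : MeasurableSet ((fun (ω : Zd d → ℝ) x => M0 - ω x) ⁻¹' G) ∧
    (Measure.infinitePi fun _ : Zd d => μ).real ((fun ω x => M0 - ω x) ⁻¹' G) =
      (Measure.infinitePi fun _ : Zd d => μ.map fun s => M0 - s).real G := by
  have hTm : Measurable (fun (ω : Zd d → ℝ) x => M0 - ω x) := by fun_prop
  have hlaw : (Measure.infinitePi fun _ : Zd d => μ).map (fun ω x => M0 - ω x) =
      Measure.infinitePi fun _ : Zd d => μ.map fun s => M0 - s :=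
    Measure.infinitePi_map_pi (μ := fun _ : Zd d => μ)
      (f := fun _ (s : ℝ) => M0 - s) (fun _ => by fun_prop)
  refine ⟨hTm hG, ?_⟩
  rw [← hlaw, map_measureReal_apply hTm hG]

/-- the constant -/
theorem AA_pos (hd : 1 ≤ d) (m : ℕ) (Cg : ℝ) (hCg : 0 < Cg) (c : ℝ) : 0 < AA d m Cg c := by
  have := κ0_ge d hd
  unfold AA
  have : 0 ≤ κ0 d + 2 := by linarith
  positivity

/-- **spreading of wave packets, bounded or Gaussian laws** -/
theorem lawU (hd : 1 ≤ d) (m : ℕ) (Cg : ℝ) (hCg : 0 < Cg)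
    (hg : ∀ (L : ℕ) [NeZero L] (δ : ℝ), 1 / (L : ℝ) ≤ δ → δ ≤ 1 / 2 →
      GB d L δ (Cg * Real.log (1 / δ) ^ m)) (b : ℝ) (hb : 0 < b) :
    ∃ K : ℝ, 0 < K ∧ ∀ (μ : Measure ℝ), IsProbabilityMeasure μ →
      ((∀ᵐ s ∂μ, |s| ≤ b) ∨ μ = ProbabilityTheory.gaussianReal 0 1) →
      ∀ lam ρ : ℝ, 0 < lam → lam ≤ 1 / 2 → 1 / lam ≤ ρ →
      ∃ G : Set (Zd d → ℝ), MeasurableSet G ∧
        1 - 1 / ρ ≤ (Measure.infinitePi fun _ : Zd d => μ).real G ∧
        ∀ ω ∈ G, ∀ (E δ : ℝ) (u f : Zd d → ℂ),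
          K * (lam ^ 2 * Real.log (1 / lam) ^ m * Real.log ρ) ≤ δ →
          (Summable fun x => ‖u x‖ ^ 2) → (Summable fun x => ‖f x‖ ^ 2) →
          ∑' x, ‖f x‖ ^ 2 ≤ δ ^ 2 * ∑' x, ‖u x‖ ^ 2 →
          (∀ x, -S u x + ((2 * d + lam * ω x : ℝ) : ℂ) * u x = (E : ℂ) * u x + f x) →
          ∀ a : Zd d, ‖a‖ ≤ ρ → ∀ θ R : ℝ, 0 < θ → θ ≤ 1 →
          (∀ j : ℕ, j ≤ d → θ ≤ |E - lam * (∫ s, s ∂μ) - 4 * j|) → 1 ≤ R →
          ∀ A : Finset (Zd d), (∀ x ∈ A, ‖x - a‖ ≤ R) →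
            ∑ x ∈ A, ‖u x‖ ^ 2 ≤ K / θ * Real.sqrt (R * δ) * ∑' x, ‖u x‖ ^ 2 := by
  obtain ⟨K1, hK1⟩ : ∃ K1 : ℝ, K1 = AA d m Cg (2 * b / m1) + AA d m Cg 1 := ⟨_, rfl⟩
  have hA1 := AA_pos hd m Cg hCg (2 * b / m1)
  have hA2 := AA_pos hd m Cg hCg 1
  have hK1p : 0 < K1 := by rw [hK1]; linarith
  have hd1 : (1 : ℝ) ≤ d := by exact_mod_cast hd
  obtain ⟨K2, hK2⟩ : ∃ K2 : ℝ, K2 = 31 * (d : ℝ) ^ 2 * (d + 1) := ⟨_, rfl⟩
  have hK2p : 0 < K2 := by rw [hK2]; positivity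
  refine ⟨K1 + K2, by positivity, ?_⟩
  intro μ hμ hμb lam ρ hlam hl2 hρ1
  obtain ⟨M0, hM0⟩ : ∃ M0, M0 = ∫ s, s ∂μ := ⟨_, rfl⟩
  rw [← hM0]
  have hmm : Measurable fun s : ℝ => M0 - s := by fun_prop
  have hνp : IsProbabilityMeasure (μ.map fun s => M0 - s) :=
    Measure.isProbabilityMeasure_map hmm.aemeasurable
  obtain ⟨c, hc1, hc2⟩ : ∃ c : ℝ, AA d m Cg c ≤ K1 ∧ DomBy (μ.map fun s => M0 - s) c := by
    rcases hμb with h | h
    · obtain ⟨_, c3, c4⟩ := centre b μ h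
      refine ⟨2 * b / m1, by rw [hK1]; linarith, ?_⟩
      rw [hM0]
      exact dom_bdd _ (2 * b) (by linarith) c3 c4
    · refine ⟨1, by rw [hK1]; linarith, ?_⟩
      have h1 : M0 = 0 := by
        rw [hM0, h, ProbabilityTheory.integral_id_gaussianReal]
      rw [h1, h]
      have h2 : (fun s : ℝ => 0 - s) = fun s => -s := by
        funext s
        ring
      rw [h2, gauss_neg]
      exact dom_gauss
  obtain ⟨G2, hG2, hP2, hb2⟩ := genU hd _ c hc2 m Cg hCg hg lam ρ hlam hl2 hρ1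
  obtain ⟨p1, p2⟩ := pull M0 μ G2 hG2
  have hl1 : 0 < Real.log (1 / lam) := Real.log_pos (by
    rw [lt_div_iff₀ hlam]; linarith)
  have hρ2 : 1 < ρ := lt_of_lt_of_le (by rw [lt_div_iff₀ hlam]; linarith) hρ1
  have hlρ := Real.log_pos hρ2
  refine ⟨(fun ω x => M0 - ω x) ⁻¹' G2, p1, ?_, ?_⟩
  · rw [p2]
    exact hP2
  · intro ω hω E δ u f hδ hu hf hfu heq a ha θ R hθ hθ1 hcrit hR A hA
    have hDp : 0 < lam ^ 2 * Real.log (1 / lam) ^ m * Real.log ρ := by positivity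
    have hAc : 0 < AA d m Cg c := AA_pos hd m Cg hCg c
    have hS0 : 0 ≤ ∑' x, ‖u x‖ ^ 2 := tsum_nonneg fun x => by positivity
    have main := UP_complex hd lam ρ _ (mul_pos hAc hDp) (fun x => M0 - ω x) (hb2 _ hω)
      (2 * d + lam * M0 - E) δ (by
        refine le_trans ?_ hδ
        apply mul_le_mul_of_nonneg_right _ hDp.le
        linarith) u (fun x => -f x) hu (by simpa using hf) (by simpa using hfu) (by
        intro x
        have h1 := heq x
        push_cast at h1 ⊢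
        linear_combination -h1) a ha θ R hθ hθ1 (by
        intro j hj
        have h1 := hcrit j hj
        have e : 2 * (d : ℝ) + lam * M0 - E - (2 * d - 4 * j) = -(E - lam * M0 - 4 * j) := by
          ring
        rw [e, abs_neg]
        exact h1) hR A hA
    refine main.trans ?_
    rw [← hK2]
    gcongr
    linarith

/-- the density of states bound in dimensions at least three -/
theorem gb3 (hd : 3 ≤ d) : ∃ Cg : ℝ, 0 < Cg ∧ ∀ (L : ℕ) [NeZero L] (δ : ℝ),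
    1 / (L : ℝ) ≤ δ → δ ≤ 1 / 2 → GB d L δ (Cg * Real.log (1 / δ) ^ 1) := by
  have hC : (1 : ℝ) ≤ 2 + 8 * Pool.Agent.W788.MFP.Dos.C3 := by
    unfold Pool.Agent.W788.MFP.Dos.C3
    norm_num
  refine ⟨2 + 8 * Pool.Agent.W788.MFP.Dos.C3, by positivity, fun L _ δ h1 h2 E => ?_⟩
  refine (Pool.Agent.W788.MFP.Dos.green d hd E δ h1 h2).trans ?_
  rw [pow_one]

end Pool.Agent.U619.UP
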