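import Pool.Agent.W788.MFP.Site
import Pool.Agent.W788.MF2.FormG
import Pool.Agent.W788.LD.Cut2

/-! Mass in a ball of a solution of `(H - E) u = f` -/

set_option autoImplicit false
set_option linter.unusedSectionVars false

open scoped BigOperators

namespace Pool.Agent.U619.UP

open Pool.Agent.W788.MFP.Four Pool.Agent.W788.MFP.Dos Pool.Agent.W788.MFP.Form
open Pool.Agent.W788.MFP.Crit Pool.Agent.W788.MFP.Cut Pool.Agent.W788.MFP.Site
open Pool.Agent.W788.MF2.FormG
open Pool.Agent.H4R2.LO (Zd)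
open Pool.Agent.H695R3.AN (lf lf_inj lf_add lf_sub)

variable {d L : ℕ} [NeZero L]

theorem real_sitef (hd : 1 ≤ d) (σ E δ ℓ g : ℝ) (hδ : 0 < δ) (hg : GB d L δ g) (hσ : 0 < σ)
    (hℓ : ℓ = 2 * d / δ) (hL : 4 * ℓ + 4 < L)
    (ω u f : Zd d → ℝ) (hu : Summable fun x => u x ^ 2) (hfs : Summable fun x => f x ^ 2)
    (heq : ∀ x, ∑ i, (u (x + Pi.single i 1) + u (x - Pi.single i 1)) + σ * ω x * u x =
      E * u x + f x)
    (hf : ∀ (w : T d L → ℝ),
      |∑ x, ω (lf x) * w x ^ 2| ≤ 2 * (1 / (4 * σ)) * q (J E δ) w) :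
    ∀ θ R : ℝ, 0 < θ → θ ≤ 1 → (∀ j : ℕ, j ≤ d → θ ≤ |E - (2 * d - 4 * j)|) → 1 ≤ R →
      ∀ A : Finset (Zd d), (∀ x ∈ A, ‖x‖ ≤ R) → ∑ x ∈ A, u x ^ 2 ≤
        (d + 1) / θ * Real.sqrt (R * δ) * (29 * d ^ 2 * ∑' x, u x ^ 2 +
          2 * (δ⁻¹) ^ 2 * ∑' x, f x ^ 2) := by
  have hd3 : (1 : ℝ) ≤ d := by exact_mod_cast hd
  have hL0 : (0 : ℝ) < L := by exact_mod_cast Nat.pos_of_ne_zero (NeZero.ne L)
  have hℓδ : δ * ℓ = 2 * d := by
    rw [hℓ]
    field_simp
  have hℓ0 : 0 < ℓ := by rw [hℓ]; positivity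
  have hS0 : 0 ≤ ∑' x, u x ^ 2 := tsum_nonneg fun x => sq_nonneg _
  have hLδ : 1 / (L : ℝ) ≤ δ := by
    rw [div_le_iff₀ hL0]
    have : δ * ℓ ≤ δ * L := by
      apply mul_le_mul_of_nonneg_left _ hδ.le
      linarith
    linarith
  have hF0 : 0 ≤ ∑' x, f x ^ 2 := tsum_nonneg fun x => sq_nonneg _
  have hq := Pool.Agent.W788.LD.Cut2.cutf hd σ E δ (2 * (1 / (4 * σ))) ℓ hδ (by positivity) hσ.le (by
    have : σ * (2 * (1 / (4 * σ))) = 1 / 2 := by
      field_simp
      norm_num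
    linarith) hℓδ.ge hL ω u f hu hfs heq hf
  obtain ⟨v, hv⟩ : ∃ v : T d L → ℝ, v = fun y => φ ℓ (lf y) * u (lf y) := ⟨_, rfl⟩
  rw [← hv] at hq
  have hg0 := GB_nonneg δ g hδ hg
  have hvz : ∀ x : Zd d, ‖x‖ ≤ ℓ → v (z L x) = u x := by
    intro x hx
    rw [hv]
    simp only
    rw [lf_z x (by linarith), φ_one ℓ hℓ0 x hx, one_mul]
  intro θ R hθ hθ1 hcrit hR A hA
  have hR0 : 0 < R := by linarith
  have hCd : (1 : ℝ) ≤ d ^ 2 * (d + 1) := by nlinarith
  have htriv : ∑ x ∈ A, u x ^ 2 ≤ ∑' x, u x ^ 2 := hu.sum_le_tsum A fun x _ => sq_nonneg _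
  -- trivial bound when the constant is large
  have htriv2 : θ / (4 * d) ≤ Real.sqrt (R * δ) → ∑ x ∈ A, u x ^ 2 ≤
      (d + 1) / θ * Real.sqrt (R * δ) * (29 * d ^ 2 * ∑' x, u x ^ 2 +
        2 * (δ⁻¹) ^ 2 * ∑' x, f x ^ 2) := by
    intro h
    have h0 : ∑ x ∈ A, u x ^ 2 ≤ 28 * d ^ 2 * (d + 1) / θ * Real.sqrt (R * δ) *
        ∑' x, u x ^ 2 := by
      refine htriv.trans ?_
      apply le_mul_of_one_le_left hS0
      have h2 : 28 * d ^ 2 * (d + 1) / θ * (θ / (4 * d)) ≤
          28 * d ^ 2 * (d + 1) / θ * Real.sqrt (R * δ) := by gcongr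
      have h3 : 28 * d ^ 2 * (d + 1) / θ * (θ / (4 * d)) = 7 * (d * ((d : ℝ) + 1)) := by
        field_simp
        ring
      nlinarith
    refine h0.trans ?_
    have h4 : (d + 1) / θ * Real.sqrt (R * δ) * (29 * d ^ 2 * ∑' x, u x ^ 2 +
        2 * (δ⁻¹) ^ 2 * ∑' x, f x ^ 2) - 28 * d ^ 2 * (d + 1) / θ * Real.sqrt (R * δ) *
        ∑' x, u x ^ 2 = (d + 1) / θ * Real.sqrt (R * δ) * (d ^ 2 * ∑' x, u x ^ 2 +
        2 * (δ⁻¹) ^ 2 * ∑' x, f x ^ 2) := by ring
    have h5 : 0 ≤ (d + 1) / θ * Real.sqrt (R * δ) * (d ^ 2 * ∑' x, u x ^ 2 +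
        2 * (δ⁻¹) ^ 2 * ∑' x, f x ^ 2) := by positivity
    linarith
  have hθd : θ / (4 * d) ≤ 1 := by
    rw [div_le_one (by positivity)]
    linarith
  rcases le_or_gt R ℓ with hRℓ | hRℓ
  · obtain ⟨s, hs⟩ : ∃ s, s = Real.sqrt (δ / R) := ⟨_, rfl⟩
    have hs0 : 0 < s := by rw [hs]; positivity
    have hRs : Real.sqrt (R * δ) = R * s := by
      rw [hs]
      have e1 : R * δ = R ^ 2 * (δ / R) := by
        field_simp
      rw [e1, Real.sqrt_mul (by positivity), Real.sqrt_sq hR0.le]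
    have hδs : δ = R * s * s := by
      rw [hs, mul_assoc, Real.mul_self_sqrt (by positivity)]
      field_simp
    rcases le_or_gt s (θ / (4 * d)) with hsθ | hsθ
    · have hs1 : 1 / (L : ℝ) ≤ s := by
        rw [div_le_iff₀ hL0]
        have e1 : 1 ≤ (s * ℓ) ^ 2 := by
          have e2 : s ^ 2 * R = δ := by rw [hδs]; ring
          have e3 : δ * ℓ ≤ s ^ 2 * ℓ * ℓ := by
            rw [← e2]
            have : s ^ 2 * R ≤ s ^ 2 * ℓ := by gcongr
            exact mul_le_mul_of_nonneg_right this hℓ0.le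
          rw [hℓδ] at e3
          nlinarith
        have e4 : 1 ≤ s * ℓ := by
          by_contra hcon
          push Not at hcon
          have : (s * ℓ) ^ 2 < 1 := by
            have : 0 ≤ s * ℓ := by positivity
            nlinarith
          linarith
        have e5 : s * ℓ ≤ s * L := by
          apply mul_le_mul_of_nonneg_left _ hs0.le
          linarith
        linarith
      have hc := crit hd E θ s δ hθ hθ1 hcrit hs1 hsθ (In L R) v
      -- the sum over `A`
      have hinj : Set.InjOn (z (d := d) L) A := by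
        intro x hx y hy hxy
        have e1 := lf_z (L := L) x (by linarith [hA x hx])
        have e2 := lf_z (L := L) y (by linarith [hA y hy])
        rw [← e1, ← e2, hxy]
      have hsum : ∑ x ∈ A, u x ^ 2 ≤
          ∑ y : T d L, (if ∀ i, y i ∈ In L R then v y ^ 2 else 0) := by
        classical
        have e1 : ∑ x ∈ A, u x ^ 2 = ∑ y ∈ A.image (z L),
            (if ∀ i, y i ∈ In L R then v y ^ 2 else 0) := by
          rw [Finset.sum_image hinj]
          refine Finset.sum_congr rfl fun x hx => ?_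
          have hxR := hA x hx
          have e2 : ∀ i, z L x i ∈ In L R := by
            intro i
            unfold In
            rw [Finset.mem_filter]
            refine ⟨Finset.mem_univ _, ?_⟩
            have e3 := coord (z L x) R (by rw [lf_z x (by linarith)]; exact hxR) i
            exact e3
          rw [if_pos e2, hvz x (by linarith)]
        rw [e1]
        apply Finset.sum_le_univ_sum_of_nonneg
        intro y
        split_ifs <;> positivity
      have hv2 : ∑ x, v x ^ 2 ≤ ∑' x, u x ^ 2 := by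
        refine le_trans (Finset.sum_le_sum fun x _ => ?_)
          (sum_lf (L := L) (fun x => u x ^ 2) (fun x => sq_nonneg _) hu)
        rw [hv]
        simp only
        rw [mul_pow]
        apply mul_le_of_le_one_left (sq_nonneg _)
        exact pow_le_one₀ (φ_nonneg _ _) (φ_le_one _ _)
      have hcard := card_In (L := L) R hR0.le
      have hcard2 : ((In L R).card : ℝ) ≤ 3 * R := by linarith
      -- the square root of `θ / (4 d)`
      have hsq : θ / (2 * d) ≤ Real.sqrt (θ / (4 * d)) := by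
        apply Real.le_sqrt_of_sq_le
        rw [div_pow, div_le_div_iff₀ (by positivity) (by positivity)]
        have e1 : θ ^ 2 ≤ θ := by nlinarith
        have e2 : θ ^ 2 * (4 * d) ≤ θ * (4 * d) :=
          mul_le_mul_of_nonneg_right e1 (by positivity)
        have e3 : θ * (4 * (d : ℝ)) ≤ θ * (2 * d) ^ 2 := by
          apply mul_le_mul_of_nonneg_left _ hθ.le
          nlinarith
        exact e2.trans e3
      have hdiv : 4 * s / Real.sqrt (θ / (4 * d)) ≤ 8 * d * s / θ := by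
        have e1 : 4 * s / Real.sqrt (θ / (4 * d)) ≤ 4 * s / (θ / (2 * d)) :=
          div_le_div_of_nonneg_left (by positivity) (by positivity) hsq
        refine e1.trans (le_of_eq ?_)
        field_simp
        norm_num
      calc ∑ x ∈ A, u x ^ 2 ≤ _ := hsum
        _ ≤ _ := hc
        _ ≤ (d + 1) * (s⁻¹ * (5 * δ * ∑' x, u x ^ 2 + 2 * δ⁻¹ * ∑' x, f x ^ 2) +
            d * (3 * R * (8 * d * s / θ) * ∑' x, u x ^ 2)) := by gcongr
        _ = (d + 1) * (R * s) * ((5 + 24 * d ^ 2 / θ) * ∑' x, u x ^ 2 +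
            2 * (δ⁻¹) ^ 2 * ∑' x, f x ^ 2) := by
          have e1 : s⁻¹ * (5 * δ * ∑' x, u x ^ 2) = 5 * (R * s) * ∑' x, u x ^ 2 := by
            rw [hδs]
            field_simp
          have e2 : s⁻¹ * (2 * δ⁻¹ * ∑' x, f x ^ 2) =
              2 * (δ⁻¹) ^ 2 * (R * s) * ∑' x, f x ^ 2 := by
            have e3 : s⁻¹ = δ⁻¹ * (R * s) := by
              rw [hδs]
              field_simp
            rw [e3]
            ring
          rw [mul_add s⁻¹, e1, e2]
          ring
        _ ≤ (d + 1) * (R * s) * (29 * d ^ 2 / θ * ∑' x, u x ^ 2 +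
            2 * (δ⁻¹) ^ 2 / θ * ∑' x, f x ^ 2) := by
          have e1 : 5 + 24 * (d : ℝ) ^ 2 / θ ≤ 29 * d ^ 2 / θ := by
            have : 5 ≤ 5 * (d : ℝ) ^ 2 / θ := by
              rw [le_div_iff₀ hθ]
              nlinarith
            have e : 29 * (d : ℝ) ^ 2 / θ = 5 * (d : ℝ) ^ 2 / θ + 24 * d ^ 2 / θ := by ring
            linarith
          have e2 : 2 * (δ⁻¹) ^ 2 ≤ 2 * (δ⁻¹) ^ 2 / θ := by
            rw [le_div_iff₀ hθ]
            have : 0 ≤ 2 * (δ⁻¹) ^ 2 := by positivity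
            nlinarith
          gcongr
        _ = _ := by
          rw [hRs]
          ring
    · apply htriv2
      rw [hRs]
      nlinarith
  · apply htriv2
    refine hθd.trans ?_
    rw [Real.one_le_sqrt]
    have : ℓ * δ ≤ R * δ := mul_le_mul_of_nonneg_right hRℓ.le hδ.le
    nlinarith


end Pool.Agent.U619.UP
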